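import Pool.Agent.Q66.RX.Stm

/-!
# Families which are close to bounded families on a neighbourhood of one of the dual are bounded
-/

set_option autoImplicit false

namespace Pool.Agent.Q158.RX

open Topology Filter Set Pool.Agent.Q66.RX

theorem continuous_rr : Continuous rr := Complex.continuous_re.comp continuous_subtype_val

/-- polars of compact sets are neighbourhoods of one in the dual -/
theorem polar_mem_nhds {X : Type} [CommGroup X] [TopologicalSpace X] [IsTopologicalGroup X]
    {K : Set X} (hK : IsCompact K) :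
    {β : PontryaginDual X | ∀ v ∈ K, 0 ≤ rr (β v)} ∈ 𝓝 (1 : PontryaginDual X) := by
  have hU : IsOpen {z : Circle | 0 < rr z} := isOpen_lt continuous_const continuous_rr
  have h1 : IsOpen {f : C(X, Circle) | MapsTo f K {z : Circle | 0 < rr z}} :=
    ContinuousMap.isOpen_setOf_mapsTo hK hU
  have h2 : IsOpen {β : PontryaginDual X | MapsTo (β : X → Circle) K {z : Circle | 0 < rr z}} :=
    h1.preimage (ContinuousMonoidHom.isInducing_toContinuousMap X Circle).continuous
  have h3 : (1 : PontryaginDual X) ∈
      {β : PontryaginDual X | MapsTo (β : X → Circle) K {z : Circle | 0 < rr z}} := by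
    intro v _
    change 0 < rr 1
    simp [rr]
  exact mem_of_superset (h2.mem_nhds h3) fun β hβ v hv => le_of_lt (hβ hv)

theorem t_TRI : S_TRI := by
  intro I X G _ _ _ _ _ _ F hF hR g y N hN h
  obtain ⟨K, hK, hgK⟩ := (hF (F.c g)).1 ⟨g, rfl⟩
  refine (hF y).2 ⟨_, hR (N ∩ {β : PontryaginDual X | ∀ v ∈ K, 0 ≤ rr (β v)})
    (inter_mem hN (polar_mem_nhds hK)), fun i ψ hψ => ?_⟩
  rw [h ψ hψ.1 i]
  exact hψ.2 _ (hgK i)

end Pool.Agent.Q158.RX
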